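import Pool.Agent.W2helper47.VK.Stm

/-!
# Piece D1 (energy bound) for MP_442c46_al
-/

set_option autoImplicit false

open Filter Topology BigOperators
open scoped ENNReal

namespace Pool.Agent.W2helper47.VK

namespace D1

theorem log_step (s t : ℝ) (hs : 0 < s) (hst : s ≤ t) : (Real.log t - Real.log s) ^ 2 ≤
    ((t - s) / s) ^ 2 := by
  have ht : 0 < t := lt_of_lt_of_le hs hst
  have h1 : 0 ≤ Real.log t - Real.log s := sub_nonneg.2 (Real.log_le_log hs hst)
  have h2 : Real.log t - Real.log s ≤ (t - s) / s := by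
    rw [← Real.log_div ht.ne' hs.ne']
    have := Real.log_le_sub_one_of_pos (div_pos ht hs)
    rwa [show t / s - 1 = (t - s) / s by field_simp] at this
  exact pow_le_pow_left₀ h1 h2 2

theorem log_jump (p q : ℕ) (h1 : p ≤ q + 1) (h2 : q ≤ p + 1) :
    (Real.log (1 + (p : ℝ)) - Real.log (1 + (q : ℝ))) ^ 2 ≤ 4 / (1 + (p : ℝ)) ^ 2 := by
  have hp : (0 : ℝ) < 1 + (p : ℝ) := by positivity
  have hq : (0 : ℝ) < 1 + (q : ℝ) := by positivity
  rcases Nat.lt_or_ge q p with h | h
  · have hpq : p = q + 1 := by omega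
    have := log_step (1 + (q : ℝ)) (1 + (p : ℝ)) hq (by
      have : (q : ℝ) ≤ p := by exact_mod_cast h.le
      linarith)
    refine this.trans ?_
    rw [div_pow, div_le_div_iff₀ (by positivity) (by positivity)]
    rw [hpq]
    push_cast
    nlinarith [Nat.cast_nonneg (α := ℝ) q]
  · have := log_step (1 + (p : ℝ)) (1 + (q : ℝ)) hp (by
      have : (p : ℝ) ≤ q := by exact_mod_cast h
      linarith)
    rw [show (Real.log (1 + (p : ℝ)) - Real.log (1 + (q : ℝ))) ^ 2 =
      (Real.log (1 + (q : ℝ)) - Real.log (1 + (p : ℝ))) ^ 2 by ring]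
    refine this.trans ?_
    rw [div_pow]
    refine div_le_div_of_nonneg_right ?_ (by positivity)
    have h3 : (q : ℝ) ≤ p + 1 := by exact_mod_cast h2
    have h4 : (p : ℝ) ≤ q := by exact_mod_cast h
    nlinarith

theorem rel_length {w : Word} (h : w ∈ relators) : w.length ≤ 5 := by
  simp only [relators, Set.mem_insert_iff, Set.mem_singleton_iff] at h
  rcases h with rfl | rfl | rfl | rfl | rfl | rfl <;> decide

open Classical in
theorem card_sum {α : Type} [Fintype α] (P : α → Prop) :
    ((Nat.card {d // P d} : ℕ) : ℝ) = ∑ d, if P d then (1 : ℝ) else 0 := by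
  rw [Nat.card_eq_fintype_card, Fintype.card_subtype, Finset.sum_boole]

/-- extension by zero -/
def G {F : Type} (g : F → ℝ) : Option F → ℝ
  | none => 0
  | some f => g f

open Classical in
theorem local_energy {w : Word} (D : Diagram w) (g : D.F → ℝ) (f : D.F) :
    ∑ f', (D.share f f' : ℝ) * (g f - g f') ^ 2 + (D.bdry f : ℝ) * g f ^ 2 =
      ∑ d : Side w D.rel, if d.1 = some f then (g f - G g (D.glue d).1) ^ 2 else 0 := by
  have h1 : ∀ f', (D.share f f' : ℝ) * (g f - g f') ^ 2 =
      ∑ d : Side w D.rel, if d.1 = some f ∧ (D.glue d).1 = some f' then (g f - g f') ^ 2 else 0 := by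
    intro f'
    unfold Diagram.share
    rw [card_sum, Finset.sum_mul]
    refine Finset.sum_congr rfl fun d _ => ?_
    split_ifs <;> simp
  have h2 : (D.bdry f : ℝ) * g f ^ 2 =
      ∑ d : Side w D.rel, if d.1 = some f ∧ (D.glue d).1 = none then g f ^ 2 else 0 := by
    unfold Diagram.bdry
    rw [card_sum, Finset.sum_mul]
    refine Finset.sum_congr rfl fun d _ => ?_
    split_ifs <;> simp
  rw [Finset.sum_congr rfl fun f' _ => h1 f', h2, Finset.sum_comm, ← Finset.sum_add_distrib]
  refine Finset.sum_congr rfl fun d _ => ?_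
  by_cases hd : d.1 = some f
  · simp only [hd, true_and, if_true]
    rcases hg : (D.glue d).1 with _ | f''
    · simp [G]
    · simp only [Option.some.injEq, Finset.sum_ite_eq, Finset.mem_univ, if_true, reduceCtorEq,
        if_false, add_zero, G]
  · simp [hd]

open Classical in
theorem side_count {w : Word} (D : Diagram w) (f : D.F) (c : ℝ) :
    ∑ d : Side w D.rel, (if d.1 = some f then c else 0) = ((D.rel f).length : ℝ) * c := by
  rw [Fintype.sum_sigma]
  have : ∀ o : Option D.F, ∑ i : Fin (polyWord w D.rel o).length,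
      (if (⟨o, i⟩ : Side w D.rel).1 = some f then c else 0) =
      if o = some f then ((D.rel f).length : ℝ) * c else 0 := by
    intro o
    by_cases h : o = some f
    · subst h
      simp only [if_true, Finset.sum_const, Finset.card_univ, Fintype.card_fin, nsmul_eq_mul]
      rfl
    · simp [h]
  rw [Finset.sum_congr rfl fun o _ => this o]
  simp

end D1

open D1 in
theorem EnergyBound_proof : EnergyBound := by
  classical
  intro w D h L hL hj
  obtain ⟨g, hg⟩ : ∃ g : D.F → ℝ, g = fun f => Real.log (1 + (h f : ℝ)) / L := ⟨_, rfl⟩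
  rw [← hg]
  have hG : ∀ o : Option D.F, G g o = Real.log (1 + (ext h o : ℝ)) / L := by
    intro o
    rcases o with _ | f
    · simp [G, ext]
    · simp [G, ext, hg]
  have hloc : ∀ f, ∑ f', (D.share f f' : ℝ) * (g f - g f') ^ 2 + (D.bdry f : ℝ) * g f ^ 2 ≤
      5 * (4 / (1 + (h f : ℝ)) ^ 2 / L ^ 2) := by
    intro f
    rw [local_energy]
    have h1 : ∀ d : Side w D.rel, (if d.1 = some f then (g f - G g (D.glue d).1) ^ 2 else 0) ≤
        if d.1 = some f then 4 / (1 + (h f : ℝ)) ^ 2 / L ^ 2 else 0 := by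
      intro d
      by_cases hd : d.1 = some f
      · rw [if_pos hd, if_pos hd]
        have e1 : g f = G g (some f) := rfl
        rw [e1, hG, hG]
        have e2 : (Real.log (1 + (ext h (some f) : ℝ)) / L -
            Real.log (1 + (ext h (D.glue d).1 : ℝ)) / L) ^ 2 =
            (Real.log (1 + (ext h (some f) : ℝ)) -
              Real.log (1 + (ext h (D.glue d).1 : ℝ))) ^ 2 / L ^ 2 := by
          rw [← sub_div, div_pow]
        rw [e2]
        refine div_le_div_of_nonneg_right ?_ (by positivity)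
        refine log_jump _ _ ?_ ?_
        · have := hj d
          rwa [hd] at this
        · have := hj (D.glue d)
          rwa [D.glue_glue, hd] at this
      · rw [if_neg hd, if_neg hd]
    refine (Finset.sum_le_sum fun d _ => h1 d).trans ?_
    rw [side_count]
    refine mul_le_mul_of_nonneg_right ?_ (by positivity)
    exact_mod_cast rel_length (D.rel_mem f)
  have hnn : ∀ f, 0 ≤ ∑ f', (D.share f f' : ℝ) * (g f - g f') ^ 2 := fun f =>
    Finset.sum_nonneg fun f' _ => mul_nonneg (Nat.cast_nonneg _) (sq_nonneg _)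
  unfold Diagram.energy
  calc (∑ f, ∑ f', (D.share f f' : ℝ) * (g f - g f') ^ 2) / 2 + ∑ f, (D.bdry f : ℝ) * g f ^ 2 ≤
      (∑ f, ∑ f', (D.share f f' : ℝ) * (g f - g f') ^ 2) + ∑ f, (D.bdry f : ℝ) * g f ^ 2 := by
        have := Finset.sum_nonneg fun f (_ : f ∈ Finset.univ) => hnn f
        linarith
    _ = ∑ f, (∑ f', (D.share f f' : ℝ) * (g f - g f') ^ 2 + (D.bdry f : ℝ) * g f ^ 2) := by
        rw [Finset.sum_add_distrib]
    _ ≤ ∑ f, 5 * (4 / (1 + (h f : ℝ)) ^ 2 / L ^ 2) := Finset.sum_le_sum fun f _ => hloc f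
    _ = 20 / L ^ 2 * ∑ f, 1 / (1 + (h f : ℝ)) ^ 2 := by
        rw [Finset.mul_sum]
        refine Finset.sum_congr rfl fun f _ => ?_
        field_simp
        norm_num

end Pool.Agent.W2helper47.VK
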