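import Pool.Agent.W2helper47.VK.Stm

/-!
# Piece D2 (elementary sums) for MP_442c46_al
-/

set_option autoImplicit false

open Filter Topology BigOperators
open scoped ENNReal

namespace Pool.Agent.W2helper47.VK

namespace D2

/-- tails of the sum of the inverse squares -/
theorem tail (m M : ℕ) : ∑ j ∈ Finset.range M, 1 / ((m : ℝ) + 1 + j) ^ 2 ≤ 2 / ((m : ℝ) + 1) := by
  have key : ∀ M : ℕ, ∑ j ∈ Finset.range (M + 1), 1 / ((m : ℝ) + 1 + j) ^ 2 ≤
      2 / ((m : ℝ) + 1) - 1 / ((m : ℝ) + 1 + M) := by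
    intro M
    induction M with
    | zero =>
      simp only [zero_add, Finset.sum_range_one, Nat.cast_zero, add_zero]
      have h1 : (1 : ℝ) ≤ (m : ℝ) + 1 := by
        have := Nat.cast_nonneg (α := ℝ) m
        linarith
      rw [← sub_div, show (2 : ℝ) - 1 = 1 by norm_num,
        div_le_div_iff₀ (by positivity) (by positivity)]
      nlinarith
    | succ M ih =>
      rw [Finset.sum_range_succ]
      have h1 : (0 : ℝ) < (m : ℝ) + 1 + M := by positivity
      have h2 : 1 / ((m : ℝ) + 1 + ((M + 1 : ℕ) : ℝ)) ^ 2 ≤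
          1 / ((m : ℝ) + 1 + M) - 1 / ((m : ℝ) + 1 + ((M + 1 : ℕ) : ℝ)) := by
        push_cast
        have h3 : (0 : ℝ) < (m : ℝ) + 1 + (M + 1) := by positivity
        rw [div_sub_div _ _ h1.ne' h3.ne', div_le_div_iff₀ (by positivity) (by positivity)]
        nlinarith
      linarith
  rcases Nat.eq_zero_or_pos M with h | h
  · subst h
    simp only [Finset.range_zero, Finset.sum_empty]
    positivity
  · obtain ⟨M, rfl⟩ : ∃ M', M = M' + 1 := ⟨M - 1, by omega⟩
    refine (key M).trans ?_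
    have : 0 ≤ 1 / ((m : ℝ) + 1 + M) := by positivity
    linarith

theorem harm (n : ℕ) : ∑ j ∈ Finset.range n, 1 / ((j : ℝ) + 1) ≤ 1 + Real.log n := by
  have h := harmonic_le_one_add_log n
  have h2 : ((harmonic n : ℚ) : ℝ) = ∑ j ∈ Finset.range n, 1 / ((j : ℝ) + 1) := by
    unfold harmonic
    push_cast
    exact Finset.sum_congr rfl fun j _ => by rw [one_div]
  rwa [h2] at h

theorem harm' (n : ℕ) : ∑ k ∈ Finset.range n, 1 / (n - k : ℝ) ≤ 1 + Real.log n := by
  rw [← Finset.sum_range_reflect]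
  refine le_trans (le_of_eq ?_) (harm n)
  refine Finset.sum_congr rfl fun j hj => ?_
  have hj' : j < n := Finset.mem_range.1 hj
  congr 1
  rw [show n - 1 - j = n - (j + 1) by omega, Nat.cast_sub (by omega)]
  push_cast
  ring

theorem sq' (n : ℕ) : ∑ k ∈ Finset.range n, 1 / (n - k : ℝ) ^ 2 ≤ 2 := by
  rw [← Finset.sum_range_reflect]
  refine le_trans (le_of_eq ?_) ((tail 0 n).trans (by norm_num))
  refine Finset.sum_congr rfl fun j hj => ?_
  have hj' : j < n := Finset.mem_range.1 hj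
  congr 2
  rw [show n - 1 - j = n - (j + 1) by omega, Nat.cast_sub (by omega)]
  push_cast
  ring

theorem sq0 (n : ℕ) : ∑ k ∈ Finset.range n, 1 / (1 + (k : ℝ)) ^ 2 ≤ 2 := by
  refine le_trans (le_of_eq ?_) ((tail 0 n).trans (by norm_num))
  refine Finset.sum_congr rfl fun j hj => ?_
  push_cast
  ring_nf

theorem inv_min (a b : ℕ) : 1 / (1 + ((min a b : ℕ) : ℝ)) ^ 2 ≤
    1 / (1 + (a : ℝ)) ^ 2 + 1 / (1 + (b : ℝ)) ^ 2 := by
  rcases min_choice a b with h | h <;> rw [h]
  · have : 0 ≤ 1 / (1 + (b : ℝ)) ^ 2 := by positivity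
    linarith
  · have : 0 ≤ 1 / (1 + (a : ℝ)) ^ 2 := by positivity
    linarith

theorem mono_inv (a b : ℕ) (h : a ≤ b) : 1 / (1 + (b : ℝ)) ^ 2 ≤ 1 / (1 + (a : ℝ)) ^ 2 := by
  have : (a : ℝ) ≤ b := by exact_mod_cast h
  exact one_div_le_one_div_of_le (by positivity) (pow_le_pow_left₀ (by positivity) (by linarith) 2)

/-- shifted sum `T - 1` -/
theorem pred_sum (c M : ℕ) : ∑ T ∈ Finset.range M, 1 / (1 + ((c + (T - 1) : ℕ) : ℝ)) ^ 2 ≤
    3 / ((c : ℝ) + 1) := by
  rcases Nat.eq_zero_or_pos M with h | h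
  · subst h
    simp only [Finset.range_zero, Finset.sum_empty]
    positivity
  · obtain ⟨M, rfl⟩ : ∃ M', M = M' + 1 := ⟨M - 1, by omega⟩
    rw [Finset.sum_range_succ']
    have h1 : ∑ T ∈ Finset.range M, 1 / (1 + ((c + (T + 1 - 1) : ℕ) : ℝ)) ^ 2 ≤
        2 / ((c : ℝ) + 1) := by
      refine le_trans (le_of_eq ?_) (tail c M)
      refine Finset.sum_congr rfl fun j _ => ?_
      push_cast [Nat.add_sub_cancel]
      ring_nf
    have h2 : 1 / (1 + ((c + (0 - 1) : ℕ) : ℝ)) ^ 2 ≤ 1 / ((c : ℝ) + 1) := by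
      rw [Nat.zero_sub, Nat.add_zero, div_le_div_iff₀ (by positivity) (by positivity)]
      nlinarith [Nat.cast_nonneg (α := ℝ) c]
    calc _ ≤ 2 / ((c : ℝ) + 1) + 1 / ((c : ℝ) + 1) := add_le_add h1 h2
      _ = 3 / ((c : ℝ) + 1) := by rw [← add_div]; norm_num

/-- sum over `T` for `i = 0` -/
theorem S0 (n k : ℕ) : ∑ T ∈ Finset.range (n + 2 * 0 + 3), 1 / (1 + (hh n 0 k T : ℝ)) ^ 2 ≤
    ((n : ℝ) + 3) * (1 / (1 + (k : ℝ)) ^ 2) + 3 := by
  have h1 : ∀ T, 1 / (1 + (hh n 0 k T : ℝ)) ^ 2 ≤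
      1 / (1 + (k : ℝ)) ^ 2 + 1 / (1 + ((0 + (T - 1) : ℕ) : ℝ)) ^ 2 := by
    intro T
    have : hh n 0 k T = min k (0 + (T - 1)) := by
      unfold hh
      rw [if_pos rfl]
      omega
    rw [this]
    exact inv_min _ _
  refine (Finset.sum_le_sum fun T _ => h1 T).trans ?_
  rw [Finset.sum_add_distrib, Finset.sum_const, Finset.card_range, nsmul_eq_mul]
  refine add_le_add (le_of_eq ?_) ((pred_sum 0 _).trans (by norm_num))
  push_cast
  ring

/-- sum over `T` for `i = n - 1` -/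
theorem S1 (n i k : ℕ) (hi0 : i ≠ 0) (hi : i + 1 = n) (hk : k < n) :
    ∑ T ∈ Finset.range (n + 2 * i + 3), 1 / (1 + (hh n i k T : ℝ)) ^ 2 ≤
    (3 * (n : ℝ) + 1) * (1 / ((n : ℝ) - k) ^ 2) + 2 := by
  rw [← Finset.sum_range_reflect]
  have h1 : ∀ T ∈ Finset.range (n + 2 * i + 3),
      1 / (1 + (hh n i k (n + 2 * i + 3 - 1 - T) : ℝ)) ^ 2 ≤
      1 / ((n : ℝ) - k) ^ 2 + 1 / (1 + (T : ℝ)) ^ 2 := by
    intro T hT
    have hT' : T < n + 2 * i + 3 := Finset.mem_range.1 hT
    have : hh n i k (n + 2 * i + 3 - 1 - T) = min (n - 1 - k) T := by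
      unfold hh
      rw [if_neg hi0, if_pos hi]
      omega
    rw [this]
    have h2 := inv_min (n - 1 - k) T
    have h3 : (1 : ℝ) + ((n - 1 - k : ℕ) : ℝ) = (n : ℝ) - k := by
      rw [show n - 1 - k = n - (k + 1) by omega, Nat.cast_sub (by omega)]
      push_cast
      ring
    rwa [h3] at h2
  refine (Finset.sum_le_sum h1).trans ?_
  rw [Finset.sum_add_distrib, Finset.sum_const, Finset.card_range, nsmul_eq_mul]
  refine add_le_add (le_of_eq ?_) (sq0 _)
  rw [← hi]
  push_cast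
  ring

/-- sum over `T` for `0 < i < n - 1` -/
theorem S2 (n i k : ℕ) (hi0 : i ≠ 0) (hi : i + 1 ≠ n) (hin : i < n) (hk : k < n) :
    ∑ T ∈ Finset.range (n + 2 * i + 3), 1 / (1 + (hh n i k T : ℝ)) ^ 2 ≤
    2 * ((n : ℝ) + 2 * i + 3) * (1 / (n : ℝ) ^ 2) + 3 * (1 / ((n : ℝ) - k)) +
      2 * (1 / ((k : ℝ) + 1)) := by
  have hn : (1 : ℝ) + ((n - 1 : ℕ) : ℝ) = n := by
    rw [Nat.cast_sub (by omega)]
    push_cast
    ring
  have h1 : ∀ T ∈ Finset.range (n + 2 * i + 3), 1 / (1 + (hh n i k T : ℝ)) ^ 2 ≤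
      (1 / (n : ℝ) ^ 2 + 1 / (1 + ((n - 1 - k + (T - 1) : ℕ) : ℝ)) ^ 2) +
      (1 / (n : ℝ) ^ 2 + 1 / (1 + ((k + (n + 2 * i + 3 - 1 - T) : ℕ) : ℝ)) ^ 2) := by
    intro T hT
    have hT' : T < n + 2 * i + 3 := Finset.mem_range.1 hT
    have h2 : min (min (n - 1) (n - 1 - k + (T - 1)))
        (min (n - 1) (k + (n + 2 * i + 3 - 1 - T))) ≤ hh n i k T := by
      unfold hh
      rw [if_neg hi0, if_neg hi]
      omega
    refine (mono_inv _ _ h2).trans ?_
    refine (inv_min _ _).trans ?_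
    have h3 := inv_min (n - 1) (n - 1 - k + (T - 1))
    have h4 := inv_min (n - 1) (k + (n + 2 * i + 3 - 1 - T))
    rw [hn] at h3 h4
    exact add_le_add h3 h4
  refine (Finset.sum_le_sum h1).trans ?_
  rw [Finset.sum_add_distrib, Finset.sum_add_distrib, Finset.sum_add_distrib, Finset.sum_const,
    Finset.card_range, nsmul_eq_mul]
  have h5 : ∑ T ∈ Finset.range (n + 2 * i + 3), 1 / (1 + ((n - 1 - k + (T - 1) : ℕ) : ℝ)) ^ 2 ≤
      3 * (1 / ((n : ℝ) - k)) := by
    refine (pred_sum _ _).trans (le_of_eq ?_)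
    rw [show n - 1 - k = n - (k + 1) by omega, Nat.cast_sub (by omega)]
    push_cast
    rw [show (n : ℝ) - (k + 1) + 1 = (n : ℝ) - k by ring]
    ring
  have h6 : ∑ T ∈ Finset.range (n + 2 * i + 3),
      1 / (1 + ((k + (n + 2 * i + 3 - 1 - T) : ℕ) : ℝ)) ^ 2 ≤ 2 * (1 / ((k : ℝ) + 1)) := by
    have h7 := Finset.sum_range_reflect (fun T => 1 / (1 + ((k + T : ℕ) : ℝ)) ^ 2)
      (n + 2 * i + 3)
    rw [h7]
    refine le_trans (le_of_eq ?_) ((tail k (n + 2 * i + 3)).trans (le_of_eq (by ring)))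
    refine Finset.sum_congr rfl fun j _ => ?_
    push_cast
    ring_nf
  have hc : ((n + 2 * i + 3 : ℕ) : ℝ) = (n : ℝ) + 2 * i + 3 := by push_cast; ring
  rw [hc]
  linarith

end D2

open D2 in
theorem SumBound_proof : SumBound := by
  refine ⟨34, by norm_num, ?_⟩
  intro n hn
  have hn3 : (3 : ℝ) ≤ n := by exact_mod_cast hn
  have hlog : 1 ≤ Real.log n := by
    rw [← Real.log_exp 1]
    refine Real.log_le_log (Real.exp_pos 1) ?_
    have := Real.exp_one_lt_d9
    linarith
  have hrow : ∀ i ∈ Finset.range n, ∑ k ∈ Finset.range n, ∑ T ∈ Finset.range (n + 2 * i + 3),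
      1 / (1 + (hh n i k T : ℝ)) ^ 2 ≤
      18 * Real.log n + (if i = 0 then 7 * (n : ℝ) else 0) +
        (if i + 1 = n then 9 * (n : ℝ) else 0) := by
    intro i hi
    have hin : i < n := Finset.mem_range.1 hi
    by_cases h0 : i = 0
    · subst h0
      rw [if_pos rfl, if_neg (by omega)]
      calc _ ≤ ∑ k ∈ Finset.range n, (((n : ℝ) + 3) * (1 / (1 + (k : ℝ)) ^ 2) + 3) :=
            Finset.sum_le_sum fun k _ => S0 n k
        _ = ((n : ℝ) + 3) * ∑ k ∈ Finset.range n, 1 / (1 + (k : ℝ)) ^ 2 + n * 3 := by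
            rw [Finset.sum_add_distrib, ← Finset.mul_sum, Finset.sum_const, Finset.card_range,
              nsmul_eq_mul]
        _ ≤ ((n : ℝ) + 3) * 2 + n * 3 := by
            have := mul_le_mul_of_nonneg_left (sq0 n) (by positivity : (0 : ℝ) ≤ (n : ℝ) + 3)
            linarith
        _ ≤ _ := by linarith
    · by_cases h1 : i + 1 = n
      · rw [if_neg h0, if_pos h1]
        calc _ ≤ ∑ k ∈ Finset.range n, ((3 * (n : ℝ) + 1) * (1 / ((n : ℝ) - k) ^ 2) + 2) :=
              Finset.sum_le_sum fun k hk => S1 n i k h0 h1 (Finset.mem_range.1 hk)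
          _ = (3 * (n : ℝ) + 1) * ∑ k ∈ Finset.range n, 1 / ((n : ℝ) - k) ^ 2 + n * 2 := by
              rw [Finset.sum_add_distrib, ← Finset.mul_sum, Finset.sum_const, Finset.card_range,
                nsmul_eq_mul]
          _ ≤ (3 * (n : ℝ) + 1) * 2 + n * 2 := by
              have := mul_le_mul_of_nonneg_left (sq' n) (by positivity : (0 : ℝ) ≤ 3 * (n : ℝ) + 1)
              linarith
          _ ≤ _ := by linarith
      · rw [if_neg h0, if_neg h1]
        calc _ ≤ ∑ k ∈ Finset.range n, (2 * ((n : ℝ) + 2 * i + 3) * (1 / (n : ℝ) ^ 2) +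
                3 * (1 / ((n : ℝ) - k)) + 2 * (1 / ((k : ℝ) + 1))) :=
              Finset.sum_le_sum fun k hk => S2 n i k h0 h1 hin (Finset.mem_range.1 hk)
          _ = n * (2 * ((n : ℝ) + 2 * i + 3) * (1 / (n : ℝ) ^ 2)) +
                3 * ∑ k ∈ Finset.range n, 1 / ((n : ℝ) - k) +
                2 * ∑ k ∈ Finset.range n, 1 / ((k : ℝ) + 1) := by
              rw [Finset.sum_add_distrib, Finset.sum_add_distrib, Finset.mul_sum,
                Finset.mul_sum, Finset.sum_const, Finset.card_range, nsmul_eq_mul]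
          _ ≤ 8 + 3 * (1 + Real.log n) + 2 * (1 + Real.log n) := by
              have e1 := harm n
              have e2 := harm' n
              have e3 : (n : ℝ) * (2 * ((n : ℝ) + 2 * i + 3) * (1 / (n : ℝ) ^ 2)) ≤ 8 := by
                have hi' : (i : ℝ) + 1 ≤ n := by exact_mod_cast hin
                rw [show (n : ℝ) * (2 * ((n : ℝ) + 2 * i + 3) * (1 / (n : ℝ) ^ 2)) =
                  (2 * ((n : ℝ) + 2 * i + 3)) / n by field_simp,
                  div_le_iff₀ (by linarith)]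
                nlinarith
              linarith
          _ ≤ _ := by linarith
  refine (Finset.sum_le_sum hrow).trans ?_
  rw [Finset.sum_add_distrib, Finset.sum_add_distrib, Finset.sum_const, Finset.card_range,
    nsmul_eq_mul]
  have e1 : ∑ i ∈ Finset.range n, (if i = 0 then 7 * (n : ℝ) else 0) ≤ 7 * n := by
    rw [Finset.sum_ite_eq']
    split_ifs
    · exact le_rfl
    · positivity
  have e2 : ∑ i ∈ Finset.range n, (if i + 1 = n then 9 * (n : ℝ) else 0) ≤ 9 * n := by
    have : ∀ i ∈ Finset.range n, (if i + 1 = n then 9 * (n : ℝ) else 0) =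
        if i = n - 1 then 9 * (n : ℝ) else 0 := by
      intro i _
      by_cases h : i + 1 = n
      · rw [if_pos h, if_pos (by omega)]
      · rw [if_neg h, if_neg (by omega)]
    rw [Finset.sum_congr rfl this, Finset.sum_ite_eq']
    split_ifs
    · exact le_rfl
    · positivity
  nlinarith

open D2 in
theorem MassBound_proof : MassBound := by
  intro n hn
  have hn3 : (3 : ℝ) ≤ n := by exact_mod_cast hn
  have hlog : 1 ≤ Real.log n := by
    rw [← Real.log_exp 1]
    refine Real.log_le_log (Real.exp_pos 1) ?_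
    have := Real.exp_one_lt_d9
    linarith
  have hrow : ∀ i ∈ Finset.range n, ∀ k ∈ Finset.range n,
      (if 1 ≤ i ∧ i + 1 < n then 4 * (2 * (i : ℝ) + 3) else 0) ≤
      ∑ T ∈ Finset.range (n + 2 * i + 3),
        4 * (Real.log (1 + (hh n i k T : ℝ)) / Real.log n) ^ 2 := by
    intro i hi k hk
    have hkn : k < n := Finset.mem_range.1 hk
    split_ifs with h
    · have h1 : ∑ T ∈ Finset.Ico (k + 1) (k + 2 * i + 4),
          4 * (Real.log (1 + (hh n i k T : ℝ)) / Real.log n) ^ 2 = 4 * (2 * (i : ℝ) + 3) := by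
        have : ∀ T ∈ Finset.Ico (k + 1) (k + 2 * i + 4),
            4 * (Real.log (1 + (hh n i k T : ℝ)) / Real.log n) ^ 2 = 4 := by
          intro T hT
          rw [Finset.mem_Ico] at hT
          have e : hh n i k T = n - 1 := by
            unfold hh
            rw [if_neg (by omega), if_neg (by omega)]
            omega
          have e2 : (1 : ℝ) + ((n - 1 : ℕ) : ℝ) = n := by
            rw [Nat.cast_sub (by omega)]
            push_cast
            ring
          rw [e, e2, div_self (by linarith)]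
          norm_num
        rw [Finset.sum_congr rfl this, Finset.sum_const, Nat.card_Ico, nsmul_eq_mul,
          show k + 2 * i + 4 - (k + 1) = 2 * i + 3 by omega]
        push_cast
        ring
      rw [← h1]
      refine Finset.sum_le_sum_of_subset_of_nonneg ?_ fun T _ _ => by positivity
      intro T hT
      rw [Finset.mem_Ico] at hT
      rw [Finset.mem_range]
      omega
    · exact Finset.sum_nonneg fun T _ => by positivity
  have h2 : ∑ i ∈ Finset.range n, ∑ k ∈ Finset.range n,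
      (if 1 ≤ i ∧ i + 1 < n then 4 * (2 * (i : ℝ) + 3) else 0) = 4 * n * ((n : ℝ) ^ 2 - 4) := by
    obtain ⟨m, rfl⟩ : ∃ m, n = m + 2 := ⟨n - 2, by omega⟩
    simp only [Finset.sum_const, Finset.card_range, nsmul_eq_mul]
    rw [← Finset.mul_sum, Finset.sum_range_succ, Finset.sum_range_succ']
    rw [if_neg (by omega), if_neg (by omega)]
    have h3 : ∑ i ∈ Finset.range m, (if 1 ≤ i + 1 ∧ i + 1 + 1 < m + 2 then
        4 * (2 * ((i + 1 : ℕ) : ℝ) + 3) else 0) = ∑ i ∈ Finset.range m, 4 * (2 * (i : ℝ) + 5) := by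
      refine Finset.sum_congr rfl fun i hi => ?_
      have := Finset.mem_range.1 hi
      rw [if_pos (by omega)]
      push_cast
      ring
    rw [h3]
    have h4 : ∑ i ∈ Finset.range m, 4 * (2 * (i : ℝ) + 5) = 4 * ((m : ℝ) ^ 2 + 4 * m) := by
      clear h3 hrow hn hn3 hlog
      induction m with
      | zero => simp
      | succ m ih =>
        rw [Finset.sum_range_succ, ih]
        push_cast
        ring
    rw [h4]
    push_cast
    ring
  refine le_trans ?_ (Finset.sum_le_sum fun i hi => Finset.sum_le_sum fun k hk => hrow i hi k hk)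
  rw [h2]
  nlinarith [mul_nonneg (by linarith : (0 : ℝ) ≤ n) (by nlinarith : (0 : ℝ) ≤ (n : ℝ) ^ 2 - 9)]

end Pool.Agent.W2helper47.VK
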